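import Pool.Agent.Q216.GH.Lattice

/-!
# The dyadic tilings of Liouville quantum gravity with `c_M ∈ (1, 25)` have no scaling limit

Let `h` be the whole-plane Gaussian free field (its circle averages), `0 < Q < 2`, and let
`X ε` be the dyadic tiling `𝒮_h^ε`, rooted at a square containing `0`, with the graph distance
multiplied by `a ε` and the counting measure multiplied by `b ε`, as a random element of the space
of pointed boundedly compact metric measure spaces (it is only asked that the probability that
`X ε` is not this space tends to `0`).  Suppose that `X ε` converges in law, for the local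
Gromov-Hausdorff-Prokhorov topology, to some random space `Y`.  Then

* `2 ≤ Q ^ 2` (for `Q < √2` there is no limit in law at all: with a probability bounded below the
  rooted graph has a vertex of infinite degree, and is not boundedly compact);
* `a ε` does not tend to `0`: no scaling limit;
* there is a deterministic `α > 0` such that almost surely all the distances in `Y` are integer
  multiples of `α`: the limit is discrete.

The reason: with a probability bounded below, uniformly in `K`, the tiling seen from the root at
infinitely many scales `ε` has `K` infinite ends (around clusters of singularities) which separate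
at a bounded distance from the root, so a limit at a scale `a ε → 0` would contain, for every `K`,
`K` points at distance at most `2` from the root and mutual distances at least `1`.
-/

set_option autoImplicit false

namespace Pool.Agent.Results.MP_d1f1b2_pr.NoScalingLimit

open MeasureTheory Filter Topology Pool.Agent.Y980

/-- **No scaling limit for the dyadic tilings.** -/
theorem result {Ω Ω' : Type*} [MeasurableSpace Ω] [MeasurableSpace Ω']
    {P : Measure Ω} {h : ℝ → ℂ → Ω → ℝ} (hh : IsGFF P h) {Q : ℝ} (hQ : 0 < Q) (hQ2 : Q < 2)
    {a b : ℝ → ℝ} (ha : ∀ ε, 0 < ε → 0 < a ε) {X : ℝ → Ω → PMMSpace}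
    (hX : Tendsto (fun ε => P {ω | ¬ IsRescaled (tiling Q h ε ω) (a ε) (b ε) (X ε ω)}) (𝓝[>] 0)
      (𝓝 0))
    {P' : Measure Ω'} [IsProbabilityMeasure P'] {Y : Ω' → PMMSpace}
    (hY : ConvergesInLaw P X P' Y) :
    2 ≤ Q ^ 2 ∧ ¬ Tendsto a (𝓝[>] 0) (𝓝 0) ∧
      ∃ α : ℝ, 0 < α ∧ ∀ᵐ ω ∂P', ∀ y z : (Y ω).X, ∃ k : ℕ, dist y z = α * k :=
  ⟨Pool.Agent.Q216.GH.two_le_sq hh hQ hQ2 ha hX, Pool.Agent.Q216.GH.no_scaling hh hQ hQ2 ha hX hY,
    Pool.Agent.Q216.GH.limit_lattice hh hQ hQ2 ha hX hY⟩

end Pool.Agent.Results.MP_d1f1b2_pr.NoScalingLimit
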